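import Mathlib

namespace Pool.Agent.Results.MP_ca57f4_an.NonUniqueness

open Set Function

noncomputable section

/-- The line `γ_z`.  For `z ≠ 0` it is the line through `z` with direction
`(-z₂, z₁) / |z|`; `γ_0` is the line through `0` with direction `w`. -/
def gam (w z : ℤ × ℤ) : Set (ℝ × ℝ) :=
  if z = 0 then {x | ∃ t : ℝ, x = (t * (w.1 : ℝ), t * (w.2 : ℝ))}
  else {x | ∃ t : ℝ, x =
    ((z.1 : ℝ) + t * (-(z.2 : ℝ) / Real.sqrt ((z.1 : ℝ) ^ 2 + (z.2 : ℝ) ^ 2)),
     (z.2 : ℝ) + t * ((z.1 : ℝ) / Real.sqrt ((z.1 : ℝ) ^ 2 + (z.2 : ℝ) ^ 2)))}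

/-- Lattice points on a planar set. -/
def lat (γ : Set (ℝ × ℝ)) : Set (ℤ × ℤ) := {y | ((y.1 : ℝ), (y.2 : ℝ)) ∈ γ}

/-- `|a|` is a power of two. -/
def P2 (a : ℤ) : Prop := ∃ m : ℕ, |a| = 2 ^ m

open Classical in
/-- The basic function away from the origin. -/
def f0 (y : ℤ × ℤ) : ℝ :=
  if y.2 = 0 ∧ P2 y.1 then 1 / (y.1 : ℝ) ^ 2
  else if y.1 = 0 ∧ P2 y.2 then 1 / (y.2 : ℝ) ^ 2
  else if |y.1| = |y.2| ∧ P2 y.1 then -(1 / (2 * (y.1 : ℝ) ^ 2))
  else 0

/-- support condition -/
def S (y : ℤ × ℤ) : Prop :=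
  (y.2 = 0 ∧ P2 y.1) ∨ (y.1 = 0 ∧ P2 y.2) ∨ (|y.1| = |y.2| ∧ P2 y.1)

lemma P2_ne {a : ℤ} (h : P2 a) : a ≠ 0 := by
  rintro rfl
  obtain ⟨m, hm⟩ := h
  simp at hm
  exact absurd hm.symm (by positivity)

lemma P2_two {a : ℤ} (h : P2 a) : P2 (2 * a) := by
  obtain ⟨m, hm⟩ := h
  refine ⟨m + 1, ?_⟩
  rw [abs_mul, hm, pow_succ]; norm_num; ring

lemma P2_neg {a : ℤ} (h : P2 a) : P2 (-a) := by
  obtain ⟨m, hm⟩ := h
  exact ⟨m, by rw [abs_neg, hm]⟩

lemma P2_of_abs {a b : ℤ} (h : P2 a) (hab : |a| = |b|) : P2 b := by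
  obtain ⟨m, hm⟩ := h
  exact ⟨m, by rw [← hab, hm]⟩

lemma f0_of_not {y : ℤ × ℤ} (h : ¬ S y) : f0 y = 0 := by
  unfold S at h
  unfold f0
  push Not at h
  rw [if_neg (by tauto), if_neg (by tauto), if_neg (by tauto)]

lemma f0_ax1 {c : ℤ} (h : P2 c) : f0 (c, 0) = 1 / (c : ℝ) ^ 2 := by
  unfold f0; rw [if_pos ⟨rfl, h⟩]

lemma f0_ax2 {c : ℤ} (h : P2 c) : f0 (0, c) = 1 / (c : ℝ) ^ 2 := by
  unfold f0
  rw [if_neg (by rintro ⟨h1, -⟩; exact P2_ne h h1), if_pos ⟨rfl, h⟩]

lemma f0_dg {c d : ℤ} (h : P2 c) (hcd : |c| = |d|) :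
    f0 (c, d) = -(1 / (2 * (c : ℝ) ^ 2)) := by
  have hd : d ≠ 0 := P2_ne (P2_of_abs h hcd)
  unfold f0
  rw [if_neg (by rintro ⟨h1, -⟩; exact hd h1),
    if_neg (by rintro ⟨h1, -⟩; exact P2_ne h h1), if_pos ⟨hcd, h⟩]

lemma ax (m : ℕ) : ∀ (a b : ℤ), a ^ 2 + b ^ 2 = 2 ^ m * a →
    (a = 0 ∧ b = 0) ∨ (a = 2 ^ m ∧ b = 0) ∨ (∃ k : ℕ, a = 2 ^ k ∧ |b| = 2 ^ k) := by
  induction m with
  | zero =>
    intro a b h
    simp only [pow_zero, one_mul] at h
    have hb : b = 0 := by
      by_contra hb
      have h1 : 0 < b ^ 2 := by positivity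
      rcases le_or_gt a 0 with ha | ha
      · nlinarith [sq_nonneg a]
      · nlinarith
    subst hb
    have : a * (a - 1) = 0 := by nlinarith
    rcases mul_eq_zero.mp this with h1 | h1
    · left; exact ⟨h1, rfl⟩
    · right; left; exact ⟨by simpa using by linarith, rfl⟩
  | succ m ih =>
    intro a b h
    rcases Int.even_or_odd' a with ⟨a', ha | ha⟩
    · rcases Int.even_or_odd' b with ⟨b', hb | hb⟩
      · have h2 : a' ^ 2 + b' ^ 2 = 2 ^ m * a' := by
          subst ha; subst hb
          rw [pow_succ (2 : ℤ) m] at h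
          nlinarith
        rcases ih a' b' h2 with ⟨h3, h4⟩ | ⟨h3, h4⟩ | ⟨k, h3, h4⟩
        · left; constructor <;> omega
        · right; left; constructor
          · rw [ha, h3, pow_succ]; ring
          · omega
        · right; right
          refine ⟨k + 1, ?_, ?_⟩
          · rw [ha, h3, pow_succ]; ring
          · rw [hb, abs_mul, h4, pow_succ]; norm_num; ring
      · exfalso
        subst ha; subst hb
        rw [pow_succ (2 : ℤ) m] at h
        have : (2 * (2 * a' ^ 2 + 2 * b' ^ 2 + 2 * b' - 2 ^ m * 2 * a') : ℤ) = -1 := by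
          nlinarith
        omega
    · rcases Int.even_or_odd' b with ⟨b', hb | hb⟩
      · exfalso
        subst ha; subst hb
        rw [pow_succ (2 : ℤ) m] at h
        have : (2 * (2 * a' ^ 2 + 2 * a' + 2 * b' ^ 2 - 2 ^ m * (2 * a' + 1)) : ℤ) = -1 := by
          nlinarith
        omega
      · cases m with
        | zero =>
          have h1 : (a - 1) ^ 2 + b ^ 2 = 1 := by norm_num at h; nlinarith
          have hb0 : b ≠ 0 := by omega
          have hb1 : 0 < b ^ 2 := by positivity
          have h2 : (a - 1) ^ 2 = 0 := by nlinarith [sq_nonneg (a - 1)]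
          have h3 : a = 1 := by
            have := pow_eq_zero_iff (two_ne_zero) |>.mp h2
            linarith
          have h4 : b ^ 2 = 1 := by nlinarith
          right; right
          refine ⟨0, by simpa using h3, ?_⟩
          have h5 : |b| = 1 := by
            have := (sq_abs b).trans h4
            nlinarith [abs_nonneg b]
          simpa using h5
        | succ n =>
          exfalso
          subst ha; subst hb
          rw [pow_succ (2 : ℤ) (n + 1), pow_succ (2 : ℤ) n] at h
          have : (4 * (a' ^ 2 + a' + b' ^ 2 + b' - 2 ^ n * (2 * a' + 1)) : ℤ) = -2 := by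
            nlinarith
          omega

lemma dg (m : ℕ) : ∀ (a b : ℤ), a ^ 2 + b ^ 2 = 2 ^ m * (a + b) →
    (a = 0 ∨ a = 2 ^ m) ∧ (b = 0 ∨ b = 2 ^ m) := by
  induction m with
  | zero =>
    intro a b h
    simp only [pow_zero, one_mul] at h ⊢
    have h1 : ∀ x : ℤ, 0 ≤ x * (x - 1) := by
      intro x
      rcases le_or_gt x 0 with hx | hx
      · nlinarith
      · exact mul_nonneg hx.le (by omega)
    have ha : a * (a - 1) = 0 := by nlinarith [h1 a, h1 b]
    have hb : b * (b - 1) = 0 := by nlinarith [h1 a, h1 b]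
    constructor
    · rcases mul_eq_zero.mp ha with h2 | h2
      · left; exact h2
      · right; linarith
    · rcases mul_eq_zero.mp hb with h2 | h2
      · left; exact h2
      · right; linarith
  | succ m ih =>
    intro a b h
    rcases Int.even_or_odd' a with ⟨a', ha | ha⟩
    · rcases Int.even_or_odd' b with ⟨b', hb | hb⟩
      · have h2 : a' ^ 2 + b' ^ 2 = 2 ^ m * (a' + b') := by
          subst ha; subst hb
          rw [pow_succ (2 : ℤ) m] at h
          nlinarith
        obtain ⟨h3, h4⟩ := ih a' b' h2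
        constructor
        · rcases h3 with h3 | h3
          · left; omega
          · right; rw [ha, h3, pow_succ]; ring
        · rcases h4 with h4 | h4
          · left; omega
          · right; rw [hb, h4, pow_succ]; ring
      · exfalso
        subst ha; subst hb
        rw [pow_succ (2 : ℤ) m] at h
        have : (2 * (2 * a' ^ 2 + 2 * b' ^ 2 + 2 * b' - 2 ^ m * (2 * a' + 2 * b' + 1)) : ℤ)
            = -1 := by
          nlinarith
        omega
    · rcases Int.even_or_odd' b with ⟨b', hb | hb⟩
      · exfalso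
        subst ha; subst hb
        rw [pow_succ (2 : ℤ) m] at h
        have : (2 * (2 * a' ^ 2 + 2 * a' + 2 * b' ^ 2 - 2 ^ m * (2 * a' + 1 + 2 * b')) : ℤ)
            = -1 := by
          nlinarith
        omega
      · exfalso
        subst ha; subst hb
        rw [pow_succ (2 : ℤ) m] at h
        have : (4 * (a' ^ 2 + a' + b' ^ 2 + b' - 2 ^ m * (a' + b' + 1)) : ℤ) = -2 := by
          nlinarith
        omega

/-- If the line `γ_z` (`z ≠ 0`) meets the support, then `z` is in the support. -/
lemma S_of_mem {y z : ℤ × ℤ} (hz : z ≠ 0) (hy : S y)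
    (h : (y.1 - z.1) * z.1 + (y.2 - z.2) * z.2 = 0) : S z := by
  obtain ⟨y1, y2⟩ := y
  obtain ⟨a, b⟩ := z
  simp only [S] at hy ⊢
  simp only at h
  have hz' : ¬ (a = 0 ∧ b = 0) := by
    rintro ⟨rfl, rfl⟩; exact hz rfl
  rcases hy with ⟨rfl, m, hm⟩ | ⟨rfl, m, hm⟩ | ⟨hab, m, hm⟩
  · rcases (abs_eq (by positivity : (0 : ℤ) ≤ 2 ^ m)).mp hm with h1 | h1
    · rcases ax m a b (by rw [← h1]; nlinarith) with h2 | ⟨h2, h3⟩ | ⟨k, h2, h3⟩
      · exact absurd h2 hz'
      · left; exact ⟨h3, m, by rw [h2, abs_of_pos (by positivity)]⟩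
      · right; right
        have : |a| = 2 ^ k := by rw [h2, abs_of_pos (by positivity)]
        exact ⟨by rw [this, h3], k, this⟩
    · rcases ax m (-a) b (by rw [show (2 : ℤ) ^ m = -y1 by omega]; nlinarith)
        with h2 | ⟨h2, h3⟩ | ⟨k, h2, h3⟩
      · exact absurd ⟨by omega, h2.2⟩ hz'
      · left; exact ⟨h3, m, by rw [← abs_neg, h2, abs_of_pos (by positivity)]⟩
      · right; right
        have : |a| = 2 ^ k := by rw [← abs_neg, h2, abs_of_pos (by positivity)]
        exact ⟨by rw [this, h3], k, this⟩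
  · rcases (abs_eq (by positivity : (0 : ℤ) ≤ 2 ^ m)).mp hm with h1 | h1
    · rcases ax m b a (by rw [← h1]; nlinarith) with h2 | ⟨h2, h3⟩ | ⟨k, h2, h3⟩
      · exact absurd ⟨h2.2, h2.1⟩ hz'
      · right; left; exact ⟨h3, m, by rw [h2, abs_of_pos (by positivity)]⟩
      · right; right
        have : |b| = 2 ^ k := by rw [h2, abs_of_pos (by positivity)]
        exact ⟨by rw [this, h3], k, h3⟩
    · rcases ax m (-b) a (by rw [show (2 : ℤ) ^ m = -y2 by omega]; nlinarith)
        with h2 | ⟨h2, h3⟩ | ⟨k, h2, h3⟩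
      · exact absurd ⟨h2.2, by omega⟩ hz'
      · right; left; exact ⟨h3, m, by rw [← abs_neg, h2, abs_of_pos (by positivity)]⟩
      · right; right
        have : |b| = 2 ^ k := by rw [← abs_neg, h2, abs_of_pos (by positivity)]
        exact ⟨by rw [this, h3], k, h3⟩
  · have hm2 : |y2| = 2 ^ m := by rw [← hab, hm]
    have key : ∃ s t : ℤ, (s = 1 ∨ s = -1) ∧ (t = 1 ∨ t = -1) ∧ y1 = s * 2 ^ m ∧
        y2 = t * 2 ^ m := by
      rcases (abs_eq (by positivity : (0 : ℤ) ≤ 2 ^ m)).mp hm with h1 | h1 <;>
      rcases (abs_eq (by positivity : (0 : ℤ) ≤ 2 ^ m)).mp hm2 with h2 | h2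
      · exact ⟨1, 1, Or.inl rfl, Or.inl rfl, by linarith, by linarith⟩
      · exact ⟨1, -1, Or.inl rfl, Or.inr rfl, by linarith, by linarith⟩
      · exact ⟨-1, 1, Or.inr rfl, Or.inl rfl, by linarith, by linarith⟩
      · exact ⟨-1, -1, Or.inr rfl, Or.inr rfl, by linarith, by linarith⟩
    obtain ⟨s, t, hs, ht, e1, e2⟩ := key
    have hs2 : s ^ 2 = 1 := by rcases hs with rfl | rfl <;> norm_num
    have ht2 : t ^ 2 = 1 := by rcases ht with rfl | rfl <;> norm_num
    have hq : (s * a) ^ 2 + (t * b) ^ 2 = 2 ^ m * (s * a + t * b) := by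
      rw [mul_pow, mul_pow, hs2, ht2]
      rw [e1, e2] at h
      linarith
    obtain ⟨h3, h4⟩ := dg m _ _ hq
    have habs : ∀ (u c : ℤ), (u = 1 ∨ u = -1) → u * c = 2 ^ m → |c| = 2 ^ m := by
      intro u c hu huc
      rw [← huc, ]
      rcases hu with rfl | rfl
      · rw [one_mul]; rw [one_mul] at huc; rw [huc, abs_of_pos (by positivity)]
      · rw [neg_one_mul] at huc ⊢
        rw [← abs_neg, huc, abs_of_pos (by positivity)]
    have hzero : ∀ (u c : ℤ), (u = 1 ∨ u = -1) → u * c = 0 → c = 0 := by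
      intro u c hu huc
      rcases hu with rfl | rfl <;> linarith
    rcases h3 with h3 | h3 <;> rcases h4 with h4 | h4
    · exact absurd ⟨hzero s a hs h3, hzero t b ht h4⟩ hz'
    · right; left; exact ⟨hzero s a hs h3, m, habs t b ht h4⟩
    · left; exact ⟨hzero t b ht h4, m, habs s a hs h3⟩
    · right; right
      exact ⟨by rw [habs s a hs h3, habs t b ht h4], m, habs s a hs h3⟩

lemma mem_lat_iff (w : ℤ × ℤ) {z : ℤ × ℤ} (hz : z ≠ 0) (y : ℤ × ℤ) :
    y ∈ lat (gam w z) ↔ (y.1 - z.1) * z.1 + (y.2 - z.2) * z.2 = 0 := by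
  have hpos : 0 < (z.1 : ℝ) ^ 2 + (z.2 : ℝ) ^ 2 := by
    have : ¬ (z.1 = 0 ∧ z.2 = 0) := by
      rintro ⟨h1, h2⟩; exact hz (Prod.ext h1 h2)
    by_cases h1 : z.1 = 0
    · have h2 : (z.2 : ℝ) ≠ 0 := by
        exact_mod_cast fun h2 => this ⟨h1, h2⟩
      positivity
    · have h2 : (z.1 : ℝ) ≠ 0 := by exact_mod_cast h1
      positivity
  set r := Real.sqrt ((z.1 : ℝ) ^ 2 + (z.2 : ℝ) ^ 2) with hr
  have hr0 : 0 < r := Real.sqrt_pos.mpr hpos
  have hr2 : r ^ 2 = (z.1 : ℝ) ^ 2 + (z.2 : ℝ) ^ 2 := Real.sq_sqrt hpos.le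
  simp only [lat, gam, if_neg hz, mem_ofPred_eq, Prod.mk.injEq, ← hr]
  constructor
  · rintro ⟨t, h1, h2⟩
    have : ((y.1 : ℝ) - z.1) * z.1 + ((y.2 : ℝ) - z.2) * z.2 = 0 := by
      rw [h1, h2]; field_simp; ring
    exact_mod_cast this
  · intro h
    have h' : ((y.1 : ℝ) - z.1) * z.1 + ((y.2 : ℝ) - z.2) * z.2 = 0 := by exact_mod_cast h
    refine ⟨(((y.2 : ℝ) - z.2) * z.1 - ((y.1 : ℝ) - z.1) * z.2) / r, ?_, ?_⟩
    · field_simp
      rw [hr2]
      linear_combination (z.1 : ℝ) * h'
    · field_simp
      rw [hr2]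
      linear_combination (z.2 : ℝ) * h'

/-- The sums over the lines `γ_z`, `z ≠ 0`. -/
lemma hasSum_line (w : ℤ × ℤ) {z : ℤ × ℤ} (hz : z ≠ 0) :
    HasSum ((lat (gam w z)).indicator f0) 0 := by
  by_cases hS : S z
  · obtain ⟨c, d⟩ := z
    simp only [S] at hS
    rcases hS with ⟨rfl, hc⟩ | ⟨rfl, hd⟩ | ⟨hcd, hc⟩
    · -- z = (c, 0)
      have hc0 : c ≠ 0 := P2_ne hc
      have hcr : (c : ℝ) ≠ 0 := by exact_mod_cast hc0
      have key := hasSum_sum_of_ne_finset_zero (L := SummationFilter.unconditional _)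
        (f := (lat (gam w (c, 0))).indicator f0)
        (s := {((c, 0) : ℤ × ℤ), (c, c), (c, -c)}) (by
          intro y hy
          by_contra hne
          have hmem := Set.mem_of_indicator_ne_zero hne
          rw [Set.indicator_of_mem hmem] at hne
          have hSy : S y := by
            by_contra h; exact hne (f0_of_not h)
          rw [mem_lat_iff w hz] at hmem
          simp only [mul_zero, add_zero, mul_eq_zero, hc0, or_false] at hmem
          obtain ⟨y1, y2⟩ := y
          simp only [S] at hSy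
          simp only at hmem
          have e : y1 = c := by linarith
          subst e
          simp only [Finset.mem_insert, Finset.mem_singleton, Prod.mk.injEq, true_and] at hy
          rcases hSy with ⟨h1, -⟩ | ⟨h1, -⟩ | ⟨h1, -⟩
          · exact hy (Or.inl h1)
          · exact hc0 h1
          · rcases abs_eq_abs.mp h1 with h2 | h2
            · exact hy (Or.inr (Or.inl h2.symm))
            · exact hy (Or.inr (Or.inr (by omega))))
      have hval : ∑ b ∈ {((c, 0) : ℤ × ℤ), (c, c), (c, -c)},
          (lat (gam w (c, 0))).indicator f0 b = 0 := by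
        rw [Finset.sum_insert, Finset.sum_insert, Finset.sum_singleton]
        · rw [Set.indicator_of_mem, Set.indicator_of_mem, Set.indicator_of_mem,
            f0_ax1 hc, f0_dg hc rfl, f0_dg hc (by rw [abs_neg])]
          · field_simp; ring
          all_goals rw [mem_lat_iff w hz]; simp
        · simp only [Finset.mem_singleton, Prod.mk.injEq, true_and]; omega
        · simp only [Finset.mem_insert, Finset.mem_singleton, Prod.mk.injEq, true_and]; omega
      rwa [hval] at key
    · -- z = (0, d)
      have hd0 : d ≠ 0 := P2_ne hd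
      have hdr : (d : ℝ) ≠ 0 := by exact_mod_cast hd0
      have key := hasSum_sum_of_ne_finset_zero (L := SummationFilter.unconditional _)
        (f := (lat (gam w (0, d))).indicator f0)
        (s := {((0, d) : ℤ × ℤ), (d, d), (-d, d)}) (by
          intro y hy
          by_contra hne
          have hmem := Set.mem_of_indicator_ne_zero hne
          rw [Set.indicator_of_mem hmem] at hne
          have hSy : S y := by
            by_contra h; exact hne (f0_of_not h)
          rw [mem_lat_iff w hz] at hmem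
          simp only [mul_zero, zero_add, mul_eq_zero, hd0, or_false] at hmem
          obtain ⟨y1, y2⟩ := y
          simp only [S] at hSy
          simp only at hmem
          have e : y2 = d := by linarith
          subst e
          simp only [Finset.mem_insert, Finset.mem_singleton, Prod.mk.injEq, and_true] at hy
          rcases hSy with ⟨h1, -⟩ | ⟨h1, -⟩ | ⟨h1, -⟩
          · exact hd0 h1
          · exact hy (Or.inl h1)
          · rcases abs_eq_abs.mp h1 with h2 | h2
            · exact hy (Or.inr (Or.inl h2))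
            · exact hy (Or.inr (Or.inr h2)))
      have hval : ∑ b ∈ {((0, d) : ℤ × ℤ), (d, d), (-d, d)},
          (lat (gam w (0, d))).indicator f0 b = 0 := by
        rw [Finset.sum_insert, Finset.sum_insert, Finset.sum_singleton]
        · rw [Set.indicator_of_mem, Set.indicator_of_mem, Set.indicator_of_mem,
            f0_ax2 hd, f0_dg hd rfl, f0_dg (P2_neg hd) (by rw [abs_neg])]
          · push_cast; field_simp; ring
          all_goals rw [mem_lat_iff w hz]; simp
        · simp only [Finset.mem_singleton, Prod.mk.injEq, and_true]; omega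
        · simp only [Finset.mem_insert, Finset.mem_singleton, Prod.mk.injEq, and_true]; omega
      rwa [hval] at key
    · -- z = (c, d), |c| = |d|
      have hc0 : c ≠ 0 := P2_ne hc
      have hd : P2 d := P2_of_abs hc hcd
      have hd0 : d ≠ 0 := P2_ne hd
      have hcr : (c : ℝ) ≠ 0 := by exact_mod_cast hc0
      have hdr : (d : ℝ) ≠ 0 := by exact_mod_cast hd0
      have hsq : (c : ℝ) ^ 2 = (d : ℝ) ^ 2 := by
        have := sq_eq_sq_iff_abs_eq_abs c d |>.mpr hcd
        exact_mod_cast this
      have key := hasSum_sum_of_ne_finset_zero (L := SummationFilter.unconditional _)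
        (f := (lat (gam w (c, d))).indicator f0)
        (s := {((c, d) : ℤ × ℤ), (2 * c, 0), (0, 2 * d)}) (by
          intro y hy
          by_contra hne
          have hmem := Set.mem_of_indicator_ne_zero hne
          rw [Set.indicator_of_mem hmem] at hne
          have hSy : S y := by
            by_contra h; exact hne (f0_of_not h)
          rw [mem_lat_iff w hz] at hmem
          obtain ⟨y1, y2⟩ := y
          simp only [S] at hSy
          simp only at hmem
          simp only [Finset.mem_insert, Finset.mem_singleton, Prod.mk.injEq] at hy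
          push Not at hy
          obtain ⟨hy1, hy2, hy3⟩ := hy
          rcases abs_eq_abs.mp hcd with e | e
          · subst e
            have hsum : y1 + y2 = 2 * c := by
              have : c * (y1 + y2 - 2 * c) = 0 := by linarith
              rcases mul_eq_zero.mp this with h | h
              · exact absurd h hc0
              · linarith
            rcases hSy with ⟨h1, -⟩ | ⟨h1, -⟩ | ⟨h1, -⟩
            · exact hy2 (by omega) h1
            · exact hy3 h1 (by omega)
            · rcases abs_eq_abs.mp h1 with h2 | h2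
              · exact hy1 (by omega) (by omega)
              · omega
          · have hsum : y1 - y2 = 2 * c := by
              have : c * (y1 - y2 - 2 * c) = 0 := by
                rw [e] at hmem ⊢; linarith
              rcases mul_eq_zero.mp this with h | h
              · exact absurd h hc0
              · linarith
            rcases hSy with ⟨h1, -⟩ | ⟨h1, -⟩ | ⟨h1, -⟩
            · exact hy2 (by omega) h1
            · exact hy3 h1 (by omega)
            · rcases abs_eq_abs.mp h1 with h2 | h2
              · omega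
              · exact hy1 (by omega) (by omega))
      have hval : ∑ b ∈ {((c, d) : ℤ × ℤ), (2 * c, 0), (0, 2 * d)},
          (lat (gam w (c, d))).indicator f0 b = 0 := by
        have hmul : c * c = d * d := by
          have := sq_eq_sq_iff_abs_eq_abs c d |>.mpr hcd
          nlinarith
        rw [Finset.sum_insert, Finset.sum_insert, Finset.sum_singleton]
        · rw [Set.indicator_of_mem, Set.indicator_of_mem, Set.indicator_of_mem,
            f0_dg hc hcd, f0_ax1 (P2_two hc), f0_ax2 (P2_two hd)]
          · push_cast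
            rw [mul_pow, mul_pow, ← hsq]; field_simp; ring
          all_goals rw [mem_lat_iff w hz]; simp only; nlinarith
        · simp only [Finset.mem_singleton, Prod.mk.injEq]; omega
        · simp only [Finset.mem_insert, Finset.mem_singleton, Prod.mk.injEq]; omega
      rwa [hval] at key
  · have : (lat (gam w z)).indicator f0 = fun _ => 0 := by
      funext y
      by_contra hne
      have hmem := Set.mem_of_indicator_ne_zero hne
      rw [Set.indicator_of_mem hmem] at hne
      have hSy : S y := by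
        by_contra h; exact hne (f0_of_not h)
      rw [mem_lat_iff w hz] at hmem
      exact hS (S_of_mem hz hSy hmem)
    rw [this]
    exact hasSum_zero

lemma f0_bound (y : ℤ × ℤ) (hy : y ≠ 0) :
    |f0 y| ≤ 1 / ((y.1 : ℝ) ^ 2 + (y.2 : ℝ) ^ 2) := by
  by_cases hS : S y
  · obtain ⟨c, d⟩ := y
    simp only [S] at hS
    rcases hS with ⟨rfl, hc⟩ | ⟨rfl, hd⟩ | ⟨hcd, hc⟩
    · rw [f0_ax1 hc, abs_of_nonneg (by positivity)]; simp
    · rw [f0_ax2 hd, abs_of_nonneg (by positivity)]; simp
    · rw [f0_dg hc hcd, abs_neg, abs_of_nonneg (by positivity)]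
      have hsq : (c : ℝ) ^ 2 = (d : ℝ) ^ 2 := by
        have := sq_eq_sq_iff_abs_eq_abs c d |>.mpr hcd
        exact_mod_cast this
      simp only
      rw [← hsq, two_mul]
  · rw [f0_of_not hS, abs_zero]; positivity

lemma summable_f0 : Summable f0 := by
  let e : ℤ × ℤ → ℤ → ℤ × ℤ := fun v k => (k * v.1, k * v.2)
  have main : ∀ v : ℤ × ℤ, (v.1 ^ 2 = 1 ∨ v.2 ^ 2 = 1) →
      Summable ((Set.range (e v)).indicator f0) := by
    intro v hv
    have hinj : Function.Injective (e v) := by
      intro a b hab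
      simp only [e, Prod.mk.injEq] at hab
      rcases hv with h | h
      · have h0 : v.1 ≠ 0 := by rintro h0; rw [h0] at h; norm_num at h
        exact mul_right_cancel₀ h0 hab.1
      · have h0 : v.2 ≠ 0 := by rintro h0; rw [h0] at h; norm_num at h
        exact mul_right_cancel₀ h0 hab.2
    rw [← hinj.summable_iff (fun x hx => Set.indicator_of_notMem hx _)]
    refine Summable.of_norm_bounded (g := fun k : ℤ => 1 / (k : ℝ) ^ 2)
      (Real.summable_one_div_int_pow.mpr one_lt_two) ?_
    intro k
    simp only [Function.comp]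
    rw [Set.indicator_of_mem (Set.mem_range_self k), Real.norm_eq_abs]
    by_cases hk : k = 0
    · subst hk
      have : f0 (e v 0) = 0 := by
        apply f0_of_not
        simp only [e, zero_mul, S]
        have h0 : ¬ P2 0 := fun h => P2_ne h rfl
        tauto
      rw [this]; simp
    · have hne : e v k ≠ 0 := by
        intro h
        exact hk (hinj (h.trans (show (0 : ℤ × ℤ) = e v 0 by ext <;> simp [e])))
      refine (f0_bound _ hne).trans ?_
      have hk' : (0 : ℝ) < (k : ℝ) ^ 2 := by
        have : (k : ℝ) ≠ 0 := by exact_mod_cast hk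
        positivity
      apply one_div_le_one_div_of_le hk'
      simp only [e]
      push_cast
      rw [mul_pow, mul_pow]
      rcases hv with h | h
      · have h' : (v.1 : ℝ) ^ 2 = 1 := by exact_mod_cast h
        rw [h']; nlinarith [mul_nonneg hk'.le (sq_nonneg (v.2 : ℝ))]
      · have h' : (v.2 : ℝ) ^ 2 = 1 := by exact_mod_cast h
        rw [h']; nlinarith [mul_nonneg hk'.le (sq_nonneg (v.1 : ℝ))]
  have h1 := (main (1, 0) (by left; norm_num)).norm
  have h2 := (main (0, 1) (by right; norm_num)).norm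
  have h3 := (main (1, 1) (by right; norm_num)).norm
  have h4 := (main (1, -1) (by right; norm_num)).norm
  refine Summable.of_norm_bounded (((h1.add h2).add h3).add h4) ?_
  intro y
  by_cases hS : S y
  · have hy : y ∈ Set.range (e (1, 0)) ∨ y ∈ Set.range (e (0, 1)) ∨
        y ∈ Set.range (e (1, 1)) ∨ y ∈ Set.range (e (1, -1)) := by
      obtain ⟨c, d⟩ := y
      simp only [S] at hS
      rcases hS with ⟨rfl, hc⟩ | ⟨rfl, hd⟩ | ⟨hcd, hc⟩
      · left; exact ⟨c, by simp [e]⟩
      · right; left; exact ⟨d, by simp [e]⟩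
      · rcases abs_eq_abs.mp hcd with h | h
        · right; right; left; exact ⟨c, by simp [e, h]⟩
        · right; right; right; exact ⟨c, by simp [e, h]⟩
    have n1 := norm_nonneg ((Set.range (e (1, 0))).indicator f0 y)
    have n2 := norm_nonneg ((Set.range (e (0, 1))).indicator f0 y)
    have n3 := norm_nonneg ((Set.range (e (1, 1))).indicator f0 y)
    have n4 := norm_nonneg ((Set.range (e (1, -1))).indicator f0 y)
    rcases hy with h | h | h | h
    · have : ‖f0 y‖ = ‖(Set.range (e (1, 0))).indicator f0 y‖ := by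
        rw [Set.indicator_of_mem h]
      linarith
    · have : ‖f0 y‖ = ‖(Set.range (e (0, 1))).indicator f0 y‖ := by
        rw [Set.indicator_of_mem h]
      linarith
    · have : ‖f0 y‖ = ‖(Set.range (e (1, 1))).indicator f0 y‖ := by
        rw [Set.indicator_of_mem h]
      linarith
    · have : ‖f0 y‖ = ‖(Set.range (e (1, -1))).indicator f0 y‖ := by
        rw [Set.indicator_of_mem h]
      linarith
  · rw [f0_of_not hS, norm_zero]; positivity

open Classical in
/-- The function, with the value at the origin adjusted to the line `γ_0`. -/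
def fr (w : ℤ × ℤ) (y : ℤ × ℤ) : ℝ :=
  f0 y + if y = 0 then -(∑' x, (lat (gam w 0)).indicator f0 x) else 0

lemma f0_zero : f0 0 = 0 := by
  apply f0_of_not
  simp only [S, Prod.fst_zero, Prod.snd_zero]
  have h0 : ¬ P2 0 := fun h => P2_ne h rfl
  tauto

/-- For every choice of the direction `w ≠ 0` of `γ_0` there is a nonzero function on `ℤ²`,
of decay `|x|⁻²` and absolutely summable, all of whose sums over the lines `γ_z`, `z ∈ ℤ²`,
vanish. -/
theorem result (w : ℤ × ℤ) (_hw : w ≠ 0) :
    ∃ f : ℤ × ℤ → ℂ, f ≠ 0 ∧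
      (∀ x : ℤ × ℤ, x ≠ 0 →
        ‖f x‖ ≤ (Real.sqrt ((x.1 : ℝ) ^ 2 + (x.2 : ℝ) ^ 2)) ^ (-(1 + 1) : ℝ)) ∧
      Summable (fun x => ‖f x‖) ∧
      ∀ z : ℤ × ℤ,
        HasSum (fun y : {y : ℤ × ℤ // ((y.1 : ℝ), (y.2 : ℝ)) ∈ gam w z} => f y) 0 := by
  classical
  set T : ℝ := ∑' x, (lat (gam w 0)).indicator f0 x with hT
  have hsumfr : Summable (fr w) := by
    unfold fr
    refine summable_f0.add ?_
    exact (hasSum_ite_eq (0 : ℤ × ℤ) (-T)).summable
  refine ⟨fun x => (fr w x : ℂ), ?_, ?_, ?_, ?_⟩
  · intro h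
    have h1 := congrFun h (1, 0)
    have h2 : fr w (1, 0) = 1 := by
      unfold fr
      rw [f0_ax1 ⟨0, by norm_num⟩, if_neg (by simp)]; norm_num
    simp only [h2] at h1
    norm_num at h1
  · intro x hx
    have h1 : fr w x = f0 x := by unfold fr; rw [if_neg hx, add_zero]
    show ‖((fr w x : ℝ) : ℂ)‖ ≤ _
    rw [h1, Complex.norm_real, Real.norm_eq_abs]
    refine (f0_bound x hx).trans (le_of_eq ?_)
    have hnn : (0 : ℝ) ≤ (x.1 : ℝ) ^ 2 + (x.2 : ℝ) ^ 2 := by positivity
    rw [Real.rpow_neg (Real.sqrt_nonneg _), show (1 + 1 : ℝ) = ((2 : ℕ) : ℝ) by norm_num,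
      Real.rpow_natCast, Real.sq_sqrt hnn, one_div]
  · have := hsumfr.norm
    refine this.congr ?_
    intro x
    simp
  · intro z
    have key : HasSum ((lat (gam w z)).indicator (fr w)) 0 := by
      by_cases hz : z = 0
      · subst hz
        have h0mem : (0 : ℤ × ℤ) ∈ lat (gam w 0) := by
          simp only [lat, gam, if_true, mem_ofPred_eq]
          exact ⟨0, by simp⟩
        have hs := (summable_f0.indicator (lat (gam w 0))).hasSum
        have hs2 := hs.add (hasSum_ite_eq (0 : ℤ × ℤ) (-T))
        rw [← hT, add_neg_cancel] at hs2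
        have hfe : (lat (gam w 0)).indicator (fr w) =
            fun b => (lat (gam w 0)).indicator f0 b + if b = 0 then -T else 0 := by
          funext y
          by_cases hy : y ∈ lat (gam w 0)
          · rw [Set.indicator_of_mem hy, Set.indicator_of_mem hy]
            rfl
          · rw [Set.indicator_of_notMem hy, Set.indicator_of_notMem hy, if_neg, add_zero]
            rintro rfl; exact hy h0mem
        rw [hfe]; exact hs2
      · have hs := hasSum_line w hz
        have hfe : (lat (gam w z)).indicator (fr w) = (lat (gam w z)).indicator f0 := by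
         funext y
         by_cases hy : y ∈ lat (gam w z)
         · rw [Set.indicator_of_mem hy, Set.indicator_of_mem hy]
           unfold fr
           rw [if_neg, add_zero]
           rintro rfl
           rw [mem_lat_iff w hz] at hy
           simp only [Prod.fst_zero, Prod.snd_zero] at hy
           have h1 : z.1 ^ 2 + z.2 ^ 2 = 0 := by nlinarith
           have h2 : z.1 = 0 := by nlinarith [sq_nonneg z.1, sq_nonneg z.2]
           have h3 : z.2 = 0 := by nlinarith [sq_nonneg z.1, sq_nonneg z.2]
           exact hz (Prod.ext h2 h3)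
         · rw [Set.indicator_of_notMem hy, Set.indicator_of_notMem hy]
        rw [hfe]; exact hs
    have key2 : HasSum (fun y : lat (gam w z) => fr w y) 0 :=
      (hasSum_subtype_iff_indicator (s := lat (gam w z)) (f := fr w)).mpr key
    have key3 := Complex.hasSum_ofReal.mpr key2
    rw [Complex.ofReal_zero] at key3
    exact key3

end

end Pool.Agent.Results.MP_ca57f4_an.NonUniqueness
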